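import Pool.Agent.H69.TRI.StmtsP

/-!
# Module NB of project TRI (block A): slope of the barrier at the side `X 0 = 0`
-/

open scoped Real ComplexConjugate

namespace Pool.TRI.A

private theorem nb_X12 (w : ℂ) : X 1 w - X 2 w = √3 * w.im := by
  have h3 : (√3 : ℝ) ^ 2 = 3 := Real.sq_sqrt (by norm_num)
  simp only [X, om]
  simp [pow_succ, Complex.mul_re, Complex.mul_im, Complex.conj_re, Complex.conj_im]
  ring_nf
  rw [h3]; ring

theorem nb (_h1 : Geo1Stmt) (h2 : LXStmt) (h3 : CertBStmt) : NBStmt := by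
  intro w hw
  obtain ⟨hsum, hW⟩ := h2.2 w
  set x : Fin 3 → ℝ := fun k => X k w / 3 with hx
  have hx0 : ∀ k, 0 ≤ x k := fun k => by
    have := hw k
    simp only [hx]; positivity
  have hs : x 0 + x 1 + x 2 = 1 := by
    have : (∑ k, X k w / 3) = x 0 + x 1 + x 2 := by
      rw [Fin.sum_univ_three]
    rw [← this]; exact hsum
  obtain ⟨-, -, -, -, hb⟩ := h2.1 x hs
  rw [hW] at hb
  obtain ⟨-, hc⟩ := h3 x hx0 hs
  have him : 3 * (x 1 - x 2) ^ 2 = w.im ^ 2 := by
    have h12 := nb_X12 w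
    have hq : (√3 : ℝ) ^ 2 = 3 := Real.sq_sqrt (by norm_num)
    have : x 1 - x 2 = √3 * w.im / 3 := by simp only [hx]; linarith
    rw [this]; nlinarith [hq]
  rw [him] at hc
  have hX0 : 0 ≤ X 0 w := hw 0
  have hBm : Bm w = X 0 w * (9 * x 1 * x 2 * (evx bX x / 10 ^ 8)) := by
    unfold Bm E
    rw [hb]; simp only [hx]; ring
  rw [hBm]
  exact mul_le_mul_of_nonneg_left hc hX0

end Pool.TRI.A
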