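import Pool.Agent.H7.TRI.EXF
import Pool.Agent.H48.TRI.AR1
import Pool.Agent.H60.TRI.AR2
import Pool.Agent.H60.TRI.BK1
import Pool.Agent.H26.TRI.BK2
import Pool.Agent.H97.TRI.COV
import Pool.Agent.H67.TRI.CTR
import Pool.Agent.H45.TRI.DSJ
import Pool.Agent.H4.TRI.ECA
import Pool.Agent.H4.TRI.ECS
import Pool.Agent.H51.TRI.ETB
import Pool.Agent.H62.TRI.FIN
import Pool.Agent.H17.TRI.FRE
import Pool.Agent.H17.TRI.GLO
import Pool.Agent.H27.TRI.GSP
import Pool.Agent.H52.TRI.ISA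
import Pool.Agent.H72.TRI.ISB
import Pool.Agent.H76.TRI.ISU
import Pool.Agent.H46.TRI.JVX
import Pool.Agent.H19.TRI.LEA
import Pool.Agent.H27.TRI.LKB
import Pool.Agent.H2.TRI.MIS
import Pool.Agent.H36.TRI.PAR
import Pool.Agent.H93.TRI.PZI
import Pool.Agent.H67.TRI.PZS
import Pool.Agent.H88.TRI.RCH
import Pool.Agent.H2.TRI.RET
import Pool.Agent.H3.TRI.TRI
import Pool.Agent.H74.TRI.TU1
import Pool.Agent.H56.TRI.TU2
import Pool.Agent.H89.TRI.TWN
import Pool.Agent.H71.TRI.PUN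
import Pool.Agent.H31.TRI.OUT

/-!
# Board `tri`: assembly
-/

namespace Pool.TRI

theorem rch : RCHStmt := RCH_thm ETB_thm EXF_own

theorem dsj : DSJStmt := DSJ_thm rch

theorem out : OUTStmt := OUT_thm rch

theorem ctr : CTRStmt := CTR_thm ETB_thm EXF_own out

theorem isu : ISUStmt := ISU_thm rch out

theorem isa : ISAStmt := ISA_thm EXF_own out isu rch

theorem isb : ISBStmt := ISB_thm EXF_own out isu rch

theorem lkb : LKBStmt := LKB_thm isa isb out rch

theorem pun : PUNStmt := PUN_thm dsj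

theorem ret : RETStmt := RET_thm pun lkb out dsj ETB_thm rch

theorem jvx : JVXStmt := JVX_thm ctr ret out rch

theorem fre : FREStmt := FRE_thm pun lkb ETB_thm EXF_own rch

theorem par : PARStmt := PAR_thm rch

theorem cov : COVStmt := COV_thm MIS_thm rch par

theorem eca : ECAStmt :=
  ECA_thm par (PZS_thm dsj) (PZI_thm lkb out dsj) jvx rch (TWN_thm ETB_thm)

theorem ecs : ECSStmt :=
  ECS_thm eca AR1_thm AR2_thm LEA_thm cov BK1_thm BK2_thm rch par

theorem glo : GLOStmt := GLO_thm (GSP_thm lkb) ecs fre dsj rch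

theorem final : FINStmt := FIN_thm glo TRI_thm TU1_thm TU2_thm

end Pool.TRI
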