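import Mathlib

/-!
# Board `tri` (MP_fd41b2_co): triangles, clique number at least `Δ / 2 + 1`

`G` is a finite graph with maximum degree at most `d`; every clique has at most `d + 1 - m`
vertices. We prove `(d + 1) * ∑ ex v ≥ n * min 0 (6 m (d - 1) - d (d + 1))`, where
`ex v = d (d - 2) - 2 e(N(v))`, for all `d ≥ 18` and `m ≥ 1`. Both bounds are sharp
(the Turán graph with `d + 1` vertices, and the cocktail party graph with `d + 2` vertices).
-/

set_option linter.unusedVariables false
set_option linter.unusedSectionVars false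

open Finset

namespace Pool.TRI

section defs

variable {V : Type} [Fintype V] [DecidableEq V] (G : SimpleGraph V)

open Classical in
/-- Neighbours of `v`. -/
noncomputable def nb (v : V) : Finset V := univ.filter (fun w => G.Adj v w)

/-- Closed neighbourhood of `v`. -/
noncomputable def cn (v : V) : Finset V := insert v (nb G v)

/-- Number of common neighbours. -/
noncomputable def cd (v w : V) : ℕ := (nb G v ∩ nb G w).card

/-- Defect of a pair: `d - 1 - cd`. -/
noncomputable def et (d : ℕ) (v w : V) : ℤ := (d : ℤ) - 1 - (cd G v w : ℤ)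

/-- Excess of a vertex: `d (d - 2) - 2 e(N(v))`. -/
noncomputable def ex (d : ℕ) (v : V) : ℤ :=
  (d : ℤ) * ((d : ℤ) - 2) - ∑ w ∈ nb G v, (cd G v w : ℤ)

/-- Number of members of `C` outside the closed neighbourhood of `w`. -/
noncomputable def df (C : Finset V) (w : V) : ℕ := (C \ cn G w).card

open Classical in
/-- The rich closed neighbourhoods: those of vertices with negative excess. -/
noncomputable def RC (d : ℕ) : Finset (Finset V) :=
  (univ.filter (fun v => ex G d v < 0)).image (cn G)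

open Classical in
/-- The twins in `C`. -/
noncomputable def SS (C : Finset V) : Finset V := C.filter (fun w => cn G w = C)

open Classical in
/-- The other members of `C`. -/
noncomputable def XX (C : Finset V) : Finset V := C.filter (fun w => cn G w ≠ C)

open Classical in
/-- Isolated pairs: one non-neighbour in `C`, which has also only one. -/
noncomputable def Iso (C : Finset V) : Finset V :=
  C.filter (fun w => df G C w = 1 ∧ ∀ u ∈ C \ cn G w, df G C u = 1)

open Classical in
/-- Leaves: one non-neighbour in `C`, which has more than one. -/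
noncomputable def Lf (C : Finset V) : Finset V :=
  C.filter (fun w => df G C w = 1 ∧ ∃ u ∈ C \ cn G w, df G C u ≠ 1)

open Classical in
/-- At least two non-neighbours in `C`. -/
noncomputable def Jc (C : Finset V) : Finset V := C.filter (fun w => 2 ≤ df G C w)

open Classical in
/-- Exactly two non-neighbours, no leaf. -/
noncomputable def J2 (C : Finset V) : Finset V :=
  (Jc G C).filter (fun w => df G C w = 2 ∧ ∀ u ∈ C \ cn G w, 2 ≤ df G C u)

open Classical in
/-- Exactly two non-neighbours, one of them a leaf. -/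
noncomputable def Jp (C : Finset V) : Finset V :=
  (Jc G C).filter (fun w => df G C w = 2 ∧ ∃ u ∈ C \ cn G w, df G C u ≤ 1)

open Classical in
/-- At least three non-neighbours. -/
noncomputable def J3 (C : Finset V) : Finset V := (Jc G C).filter (fun w => 3 ≤ df G C w)

/-- `σ = |SS| - 1`. -/
noncomputable def sg (C : Finset V) : ℤ := ((SS G C).card : ℤ) - 1

/-- `x = |XX|`. -/
noncomputable def xx (C : Finset V) : ℤ := ((XX G C).card : ℤ)

/-- The target `T = min (2 σ) (d + x - 4)`. -/
noncomputable def Tt (d : ℕ) (C : Finset V) : ℤ := min (2 * sg G C) ((d : ℤ) + xx G C - 4)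

/-- What `w` lacks from the target. -/
noncomputable def lk (d : ℕ) (C : Finset V) (w : V) : ℤ := max 0 (Tt G d C - ex G d w)

open Classical in
/-- What `y` pays: for every rich `C` not containing `y` and every neighbour `w` of `y` in an
isolated pair of `C`, the lack of `w`. -/
noncomputable def pay (d : ℕ) (y : V) : ℤ :=
  ∑ C ∈ (RC G d).filter (fun C => y ∉ C), ∑ w ∈ Iso G C ∩ nb G y, lk G d C w

open Classical in
/-- Number of twins of `w` in `XX C`. -/
noncomputable def tw (d : ℕ) (C : Finset V) (w : V) : ℕ :=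
  ((XX G C ∩ nb G w).filter (fun u => et G d w u ≤ 0)).card

/-- The hypotheses. -/
structure Hyp (d m : ℕ) : Prop where
  deg : ∀ v, (nb G v).card ≤ d
  d18 : 18 ≤ d
  m1 : 1 ≤ m
  clq : ∀ K : Finset V, (∀ u ∈ K, ∀ v ∈ K, u ≠ v → G.Adj u v) → K.card + m ≤ d + 1

variable {G}

lemma mem_nb {v w : V} : w ∈ nb G v ↔ G.Adj v w := by
  classical
  unfold nb
  rw [mem_filter]
  exact ⟨fun h => h.2, fun h => ⟨mem_univ _, h⟩⟩

lemma mem_cn {v w : V} : w ∈ cn G v ↔ w = v ∨ G.Adj v w := by
  unfold cn
  rw [mem_insert, mem_nb]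

lemma mem_cn_comm {v w : V} : w ∈ cn G v ↔ v ∈ cn G w := by
  rw [mem_cn, mem_cn, eq_comm, G.adj_comm]

lemma self_mem_cn (v : V) : v ∈ cn G v := mem_cn.2 (Or.inl rfl)

lemma self_notMem_nb (v : V) : v ∉ nb G v := fun h => (mem_nb.1 h).ne rfl

lemma card_cn (v : V) : (cn G v).card = (nb G v).card + 1 := by
  unfold cn
  rw [card_insert_of_notMem (self_notMem_nb v)]

lemma mem_SS {C : Finset V} {w : V} : w ∈ SS G C ↔ w ∈ C ∧ cn G w = C := by
  classical
  unfold SS
  rw [mem_filter]

lemma mem_XX {C : Finset V} {w : V} : w ∈ XX G C ↔ w ∈ C ∧ cn G w ≠ C := by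
  classical
  unfold XX
  rw [mem_filter]

lemma mem_Iso {C : Finset V} {w : V} : w ∈ Iso G C ↔
    w ∈ C ∧ df G C w = 1 ∧ ∀ u ∈ C \ cn G w, df G C u = 1 := by
  classical
  unfold Iso
  rw [mem_filter]

lemma mem_Lf {C : Finset V} {w : V} : w ∈ Lf G C ↔
    w ∈ C ∧ df G C w = 1 ∧ ∃ u ∈ C \ cn G w, df G C u ≠ 1 := by
  classical
  unfold Lf
  rw [mem_filter]

lemma mem_Jc {C : Finset V} {w : V} : w ∈ Jc G C ↔ w ∈ C ∧ 2 ≤ df G C w := by
  classical
  unfold Jc
  rw [mem_filter]

lemma mem_J2 {C : Finset V} {w : V} : w ∈ J2 G C ↔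
    w ∈ Jc G C ∧ df G C w = 2 ∧ ∀ u ∈ C \ cn G w, 2 ≤ df G C u := by
  classical
  unfold J2
  rw [mem_filter]

lemma mem_Jp {C : Finset V} {w : V} : w ∈ Jp G C ↔
    w ∈ Jc G C ∧ df G C w = 2 ∧ ∃ u ∈ C \ cn G w, df G C u ≤ 1 := by
  classical
  unfold Jp
  rw [mem_filter]

lemma mem_J3 {C : Finset V} {w : V} : w ∈ J3 G C ↔ w ∈ Jc G C ∧ 3 ≤ df G C w := by
  classical
  unfold J3
  rw [mem_filter]

lemma mem_RC {d : ℕ} {C : Finset V} : C ∈ RC G d ↔ ∃ v, ex G d v < 0 ∧ cn G v = C := by
  classical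
  unfold RC
  rw [mem_image]
  constructor
  · rintro ⟨v, hv, h⟩
    exact ⟨v, (mem_filter.1 hv).2, h⟩
  · rintro ⟨v, hv, h⟩
    exact ⟨v, mem_filter.2 ⟨mem_univ _, hv⟩, h⟩

lemma lk_nonneg (d : ℕ) (C : Finset V) (w : V) : 0 ≤ lk G d C w := le_max_left _ _

lemma le_ex_add_lk (d : ℕ) (C : Finset V) (w : V) : Tt G d C ≤ ex G d w + lk G d C w := by
  have := le_max_right 0 (Tt G d C - ex G d w)
  unfold lk
  linarith

/-- The relation (not in the closed neighbourhood) is symmetric inside `C`. -/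
lemma mem_sdiff_comm {C : Finset V} {u w : V} (hu : u ∈ C) (hw : w ∈ C) :
    u ∈ C \ cn G w ↔ w ∈ C \ cn G u := by
  rw [mem_sdiff, mem_sdiff, mem_cn_comm]
  exact ⟨fun h => ⟨hw, h.2⟩, fun h => ⟨hu, h.2⟩⟩

end defs

/-- Loss of a payer. -/
def mu (s x k : ℤ) : ℤ := min s (max 0 (3 * k - x - 1))

/-- Net contribution of a member of `C` with `k ≥ 2` non-neighbours in `C` (`s = σ`). -/
def bk (s x k : ℤ) : ℤ := 2 * (s + 1) * (k - 1) + k * (s - mu s x k) - k * (k - 1)

end Pool.TRI
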