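import Pool.Agent.H7.TRI.Stmts

open Finset

namespace Pool.TRI

theorem EXF_own : EXFStmt := by
  intro V _ _ G d v
  unfold ex et
  have h : ∑ w ∈ nb G v, ((d : ℤ) - 1 - (cd G v w : ℤ) - 1)
      = ((nb G v).card : ℤ) * ((d : ℤ) - 2) - ∑ w ∈ nb G v, (cd G v w : ℤ) := by
    rw [show (fun w => (d : ℤ) - 1 - (cd G v w : ℤ) - 1)
      = (fun w => ((d : ℤ) - 2) - (cd G v w : ℤ)) from by funext w; ring, sum_sub_distrib,
      sum_const, nsmul_eq_mul]
  rw [h]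
  ring

end Pool.TRI
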