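import Pool.Agent.H7.TRI.Defs

/-!
# Board `tri`: the statements

Row XXX is `def XXXStmt : Prop`; the proof is in the docstring. All notions are in `Defs.lean`
(`nb` neighbours, `cn` closed neighbourhood, `cd` codegree, `et` defect of a pair, `ex` excess,
`df C w` number of non-neighbours of `w` in `C`, `RC` rich closed neighbourhoods, `SS, XX` twins
and the rest, `Iso, Lf, Jc` the three kinds of members of `XX`, `sg = |SS| - 1`, `xx = |XX|`).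
Every row may use the previous rows only through its hypotheses (column `needs`).
-/

set_option linter.unusedVariables false

open Finset

namespace Pool.TRI

/-- ETB. `nb v ∩ nb w ⊆ (nb v).erase w` (as `w ∉ nb w`), so `cd ≤ |nb v| - 1`, which gives the first
inequality (`et = d - 1 - cd`), the second follows with `|nb v| ≤ d`. Symmetry: `inter_comm`.
If `et ≤ 0` then `cd ≥ d - 1 ≥ |nb v| - 1, |nb w| - 1`, so `nb v ∩ nb w = (nb v).erase w` and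
`= (nb w).erase v` (subset and cardinality), hence
`cn v = insert v (insert w (nb v ∩ nb w)) = cn w`. -/
def ETBStmt : Prop := ∀ (V : Type) [Fintype V] [DecidableEq V] (G : SimpleGraph V) (d m : ℕ),
  Hyp G d m → ∀ v w : V, G.Adj v w →
    (d : ℤ) - ((nb G v).card : ℤ) ≤ et G d v w ∧ 0 ≤ et G d v w ∧ et G d v w = et G d w v ∧
    (et G d v w ≤ 0 → cn G v = cn G w)

/-- EXF. `∑_{w ∈ nb v} (d - 1 - cd - 1) = |nb v| (d - 2) - ∑ cd`, and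
`|nb v| (d - 2) + (d - |nb v|)(d - 2) = d (d - 2)`. -/
def EXFStmt : Prop := ∀ (V : Type) [Fintype V] [DecidableEq V] (G : SimpleGraph V) (d : ℕ) (v : V),
  ex G d v = ∑ w ∈ nb G v, (et G d v w - 1) + ((d : ℤ) - ((nb G v).card : ℤ)) * ((d : ℤ) - 2)

/-- RCH. Let `C = cn v`, `ex v < 0`. If `|nb v| ≤ d - 1` then every term `et - 1` of EXF is
`≥ d - |nb v| - 1 ≥ 0` and the last term is `≥ 0`: contradiction; so `|nb v| = d` and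
`|C| = d + 1`. If `cn z = C` then `|nb z| = d`, and for `w ∈ nb z`:
`C ∩ cn w = cn z ∩ cn w = {z, w} ∪ (nb z ∩ nb w)` (disjoint), so `df C w = d + 1 - cd - 2 =
et z w`, and EXF gives `ex z = ∑_{w ∈ nb z} (df C w - 1) = ∑_{w ∈ C} df C w - d` (`df C z = 0`);
in particular `ex z` is the same for all `z ∈ SS`, so it is `ex v < 0`.
For `w ∈ C`: `df C w = 0` iff `C ⊆ cn w` iff `cn w = C` (as `|cn w| ≤ d + 1 = |C|`). So the sum over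
`C` is the sum over `XX`, and `w ∈ XX ↔ 1 ≤ df`. `|SS| + |XX| = |C|` (filter). From
`|XX| ≤ ∑_{XX} df < d`: `|SS| ≥ 2`. For `w ∈ XX`: `df w + (|XX| - 1) ≤ ∑_{XX} df ≤ d - 1`, i.e.
`df w + 1 ≤ d + 1 - |XX| = |SS|`. `|XX| ≥ 2`: `C` is not a clique (`|C| + m ≥ d + 2`), so there are
two non-adjacent members, both in `XX` (a member of `SS` is adjacent to all others). -/
def RCHStmt : Prop := ∀ (V : Type) [Fintype V] [DecidableEq V] (G : SimpleGraph V) (d m : ℕ),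
  Hyp G d m → ∀ C ∈ RC G d,
    C.card = d + 1 ∧ (SS G C).card + (XX G C).card = d + 1 ∧ 2 ≤ (SS G C).card ∧
    2 ≤ (XX G C).card ∧
    (∀ v ∈ SS G C, (nb G v).card = d ∧ ex G d v < 0 ∧
      ex G d v = ∑ w ∈ XX G C, (df G C w : ℤ) - (d : ℤ)) ∧
    (∀ w ∈ C, (w ∈ XX G C ↔ 1 ≤ df G C w)) ∧
    (∑ w ∈ XX G C, df G C w < d) ∧
    (∀ w ∈ XX G C, df G C w + 1 ≤ (SS G C).card)

/-- DSJ. Suppose `C ≠ C'`. Write `s, s'` for `|SS C|, |SS C'|`.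
Case A: some `z ∈ SS C` is in `C'`. For every `z' ∈ SS C'`: `z ∈ C' = cn z'`, so `z' ∈ cn z = C`;
hence `SS C' ⊆ C`, and in the same way `SS C ⊆ C'`. Let `δ = |C \ C'| = |C' \ C| ≥ 1` (equal
cardinalities, `C ≠ C'`). In `C`: `SS C' ⊆ XX C` and `df C z' = |C \ C'| = δ` for `z' ∈ SS C'`;
`C \ C' ⊆ XX C` (as `SS C ⊆ C'`) and for `w ∈ C \ C'`: all `z' ∈ SS C'` are in `C \ cn w`, so
`df C w ≥ s'`; these two sets are disjoint. So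
`d > ∑_{XX C} df ≥ s' δ + δ s' + (|XX C| - s' - δ)` with `d = s - 1 + |XX C|`, i.e.
`2 s' δ - s' - δ + 1 < s`; as `(s' - 1)(δ - 1) ≥ 0` the left side is `≥ s' δ ≥ s'`, so `s' < s`.
By symmetry `s < s'`: contradiction.
Case B: `SS C ∩ C' = ∅`. Then `SS C' ∩ C = ∅` too (if `z' ∈ SS C' ∩ C` then for `z ∈ SS C`:
`z' ∈ cn z`, so `z ∈ cn z' = C'`). Let `u ∈ C ∩ C'`; then `u ∈ XX C ∩ XX C'`. All `z' ∈ SS C'` are in
`cn u` (as `u ∈ C' = cn z'`) and not in `C`, so `d + 1 ≥ |cn u| ≥ |C ∩ cn u| + s' =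
d + 1 - df C u + s'`, i.e. `df C u ≥ s'`; with `df C u + 1 ≤ s` (RCH): `s' + 1 ≤ s`. By symmetry
`s + 1 ≤ s'`: contradiction. -/
def DSJStmt : Prop := ∀ (V : Type) [Fintype V] [DecidableEq V] (G : SimpleGraph V) (d m : ℕ),
  Hyp G d m → ∀ C ∈ RC G d, ∀ C' ∈ RC G d, C ≠ C' → Disjoint C C'

/-- OUT. `w ∈ XX C`. Members `z` of `SS C` have `cn z = C ∋ w`, `z ≠ w`, so `SS C ⊆ nb w`.
`nb w ∩ C = (C ∩ cn w).erase w` has `d + 1 - df C w - 1` elements; add `|nb w \ C|`. The second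
statement follows with `|nb w| ≤ d`. For `u ∈ nb w`, `u ∉ C`: no `z ∈ SS C` is adjacent to `u`
(`nb z ⊆ C`), so `nb w ∩ nb u ⊆ nb w \ (SS C ∪ {u})` and `cd ≤ d - s - 1`, `et ≥ s`.
For `u ∈ SS C`: `nb w ∩ nb u = (nb w ∩ C).erase u` (`nb u = C.erase u`, `u ∈ nb w ∩ C`), which has
`d - df C w - 1` elements, so `et = df C w`. -/
def OUTStmt : Prop := ∀ (V : Type) [Fintype V] [DecidableEq V] (G : SimpleGraph V) (d m : ℕ),
  Hyp G d m → ∀ C ∈ RC G d, ∀ w ∈ XX G C,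
    (nb G w).card + df G C w = d + (nb G w \ C).card ∧
    (nb G w \ C).card ≤ df G C w ∧
    (∀ u ∈ nb G w, u ∉ C → ((SS G C).card : ℤ) ≤ et G d w u) ∧
    (∀ u ∈ SS G C, u ∈ nb G w ∧ et G d w u = (df G C w : ℤ))

/-- CTR. In EXF for `w` split `nb w` into `SS C` (all of it, each term `df - 1`), `XX C ∩ nb w`
(each term `≥ -1` by ETB, and `≥ 0` unless `et ≤ 0`, so the sum is `≥ - tw`), and `nb w \ C`.
`d - |nb w| = df - |nb w \ C|` by OUT. -/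
def CTRStmt : Prop := ∀ (V : Type) [Fintype V] [DecidableEq V] (G : SimpleGraph V) (d m : ℕ),
  Hyp G d m → ∀ C ∈ RC G d, ∀ w ∈ XX G C,
    ((SS G C).card : ℤ) * ((df G C w : ℤ) - 1) + ∑ u ∈ nb G w \ C, (et G d w u - 1)
      + ((df G C w : ℤ) - ((nb G w \ C).card : ℤ)) * ((d : ℤ) - 2) - (tw G d C w : ℤ) ≤ ex G d w

/-- ISU. `w ∈ Iso C`, with `C \ cn w = {w'}`; then `df C w' = 1`, `C \ cn w' = {w}`. Let
`u ∈ XX C`, `u ≠ w, w'`. Then `u ∈ nb w`. As `df C u ≥ 1` there is `q ∈ C \ cn u`; `q ≠ w` (else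
`u ∈ C \ cn w = {w'}`), `q ≠ w'` (else `u ∈ C \ cn w' = {w}`), so `q ∈ nb w` (`q ∉ C \ cn w`), `q ≠ u`,
`q ∉ nb u`. So `nb w ∩ nb u ⊆ nb w \ {u, q}`, minus also any `y ∈ nb w \ C` which is not in `nb u`
(`y ≠ u, q`). With `|nb w| = d - 1 + |nb w \ C|` (OUT): `cd ≤ d - 3 + |nb w \ C|` and
`≤ d - 4 + |nb w \ C|` if there is such a `y`. -/
def ISUStmt : Prop := ∀ (V : Type) [Fintype V] [DecidableEq V] (G : SimpleGraph V) (d m : ℕ),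
  Hyp G d m → ∀ C ∈ RC G d, ∀ w ∈ Iso G C, w ∈ XX G C ∧ ∃ w' ∈ XX G C, w' ≠ w ∧
    w' ∉ nb G w ∧ C \ cn G w = {w'} ∧
    (∀ u ∈ XX G C, u ≠ w → u ≠ w' → u ∈ nb G w ∧
      2 - ((nb G w \ C).card : ℤ) ≤ et G d w u ∧
      (∀ y ∈ nb G w, y ∉ C → y ∉ nb G u → 3 - ((nb G w \ C).card : ℤ) ≤ et G d w u))

/-- ISA. `nb w` is the disjoint union of `SS C` (terms `et - 1 = df - 1 = 0`, OUT) and
`XX C \ {w, w'}` (`x - 2` terms, each `et - 1 ≥ 1` by ISU); `d - |nb w| = 1`. EXF. -/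
def ISAStmt : Prop := ∀ (V : Type) [Fintype V] [DecidableEq V] (G : SimpleGraph V) (d m : ℕ),
  Hyp G d m → ∀ C ∈ RC G d, ∀ w ∈ Iso G C, nb G w \ C = ∅ →
    (d : ℤ) + xx G C - 4 ≤ ex G d w

/-- ISB. `|nb w \ C| ≤ df C w = 1`, so `nb w \ C = {y}` and `|nb w| = d`. Let `w'` be as in ISU and
`e = 1` if `w' ∈ nb y`, else `e = 0`; `c = |nb y ∩ XX C|` (`w` is counted). If `e = 0` then
`nb y ∩ XX C ⊆ XX C \ {w'}`, so `c ≤ x - 1 + e`. `nb w = SS C ∪ (XX C \ {w, w'}) ∪ {y}`;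
`nb w ∩ nb y = (XX C \ {w, w'}) ∩ nb y` (a `z ∈ SS C` is not adjacent to `y ∉ C`), which has
`c - 1 - e` elements; so `et w y = d - 1 - (c - 1 - e) = d - c + e`. In EXF (last term zero): the
terms of `SS C` are `0`, those of `u ∈ XX C \ {w, w'}` are `≥ 0` and `≥ 1` if `y ∉ nb u` (ISU with
`|nb w \ C| = 1`), and there are `(x - 2) - (c - 1 - e)` of the latter; the term of `y` is
`d - c + e - 1`. Sum: `d + x - 2 - 2 c + 2 e`. -/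
def ISBStmt : Prop := ∀ (V : Type) [Fintype V] [DecidableEq V] (G : SimpleGraph V) (d m : ℕ),
  Hyp G d m → ∀ C ∈ RC G d, ∀ w ∈ Iso G C, ∀ y ∈ nb G w, y ∉ C →
    nb G w \ C = {y} ∧ ∃ e : ℤ, 0 ≤ e ∧ e ≤ 1 ∧
      ((nb G y ∩ XX G C).card : ℤ) ≤ xx G C - 1 + e ∧
      et G d w y = (d : ℤ) - ((nb G y ∩ XX G C).card : ℤ) + e ∧
      (d : ℤ) + xx G C - 2 - 2 * ((nb G y ∩ XX G C).card : ℤ) + 2 * e ≤ ex G d w

/-- LKB. Write `c = |nb y ∩ XX C|`, `x = xx`, `σ = sg = d - x` (RCH). If `nb w \ C = ∅` then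
`ex w ≥ d + x - 4 ≥ T` (ISA), so `lk = 0`. Let `y ∈ nb w \ C` and take ISB. `c ≥ 1` (`w` is counted;
`w ∈ XX C`). `lk = max 0 (T - ex w)` with `T ≤ d + x - 4`, so
`lk ≤ max 0 (2 c - 2 - 2 e) ≤ 2 (c - 1)`. And `T ≤ 2 σ = 2 (d - x)`, so
`lk ≤ max 0 (d - 3 x + 2 + 2 c - 2 e)`, which is `≤ d - c + e - 1 = et w y - 1` because
`3 c ≤ 3 x - 3 + 3 e` and because `et w y ≥ |SS C| ≥ 2` (OUT; for the `0` in the max). -/
def LKBStmt : Prop := ∀ (V : Type) [Fintype V] [DecidableEq V] (G : SimpleGraph V) (d m : ℕ),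
  Hyp G d m → ∀ C ∈ RC G d, ∀ w ∈ Iso G C,
    (nb G w \ C = ∅ → lk G d C w = 0) ∧
    ∀ y ∈ nb G w, y ∉ C → nb G w \ C = {y} ∧
      lk G d C w ≤ 2 * (((nb G y ∩ XX G C).card : ℤ) - 1) ∧
      lk G d C w ≤ et G d w y - 1 ∧
      (d : ℤ) - ((nb G y ∩ XX G C).card : ℤ) ≤ et G d w y

/-- PZS. `v ∈ SS C`, so `nb v ⊆ cn v = C`. If `C' ∈ RC`, `v ∉ C'` then `C' ≠ C`, so `C'` is disjoint
from `C` (DSJ) and `Iso C' ∩ nb v ⊆ C' ∩ C = ∅`; all inner sums are empty. -/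
def PZSStmt : Prop := ∀ (V : Type) [Fintype V] [DecidableEq V] (G : SimpleGraph V) (d m : ℕ),
  Hyp G d m → ∀ C ∈ RC G d, ∀ v ∈ SS G C, pay G d v = 0

/-- PZI. Let `C' ∈ RC`, `v ∉ C'` (so `C' ≠ C`, disjoint from `C` by DSJ) and `w ∈ Iso C' ∩ nb v`.
Then `v ∈ nb w`, `v ∉ C'`, and LKB gives `lk C' w ≤ 2 (c - 1)` with `c = |nb v ∩ XX C'| ≤
|nb v \ C| ≤ df C v = 1` (OUT). So `lk C' w ≤ 0`, and `lk ≥ 0`. -/
def PZIStmt : Prop := ∀ (V : Type) [Fintype V] [DecidableEq V] (G : SimpleGraph V) (d m : ℕ),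
  Hyp G d m → ∀ C ∈ RC G d, ∀ v ∈ XX G C, df G C v = 1 → pay G d v = 0

/-- PUN. The members of `RC` are pairwise disjoint (DSJ), so the sets `Iso C' ∩ nb y` for
`C' ∈ RC`, `y ∉ C'` are pairwise disjoint (`Iso C' ⊆ C'`); take for `U` their union, `p u = lk C' u`
for the unique `C'` with `u ∈ C'` (or define `p u` as the sum of `lk C' u` over all `C' ∈ RC` with
`u ∈ Iso C'`, `y ∉ C'`, a sum with at most one term). -/
def PUNStmt : Prop := ∀ (V : Type) [Fintype V] [DecidableEq V] (G : SimpleGraph V) (d m : ℕ),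
  Hyp G d m → ∀ y : V, ∃ (U : Finset V) (p : V → ℤ), U ⊆ nb G y ∧
    pay G d y = ∑ u ∈ U, p u ∧
    ∀ u ∈ U, ∃ C' ∈ RC G d, y ∉ C' ∧ u ∈ Iso G C' ∧ p u = lk G d C' u

/-- RET. Take `U, p` from PUN. Every `u ∈ U` is in some `C'` with `y ∉ C'`, so `C' ≠ C`, `C'` is
disjoint from `C`, `u ∉ C`: `U ⊆ nb y \ C`. So the right side is the sum over `u ∈ nb y \ C` of
`et y u - 1 - p u`, with `p u = 0` for `u ∉ U`. Each term is `≥ σ - μ`, where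
`μ = mu σ x k = min σ (max 0 (3 k - x - 1)) ≥ 0`: for `u ∉ U` by OUT (`et y u ≥ |SS C| = σ + 1`).
For `u ∈ U`: `y ∈ nb u`, `y ∉ C'`; LKB (with `w := u`, `C := C'`, `et u y = et y u` by ETB):
`p u ≤ et y u - 1`, so the term is `≥ 0`; and with `c = |nb y ∩ XX C'| ≤ |nb y \ C| ≤ k` (OUT):
term `≥ (d - c) - 1 - 2 (c - 1) = d + 1 - 3 c ≥ d + 1 - 3 k = σ + x + 1 - 3 k` (RCH: `σ + x = d`).
If `3 k - x - 1 ≤ 0` this is `≥ σ`; otherwise `max 0 (σ - (3 k - x - 1)) = σ - μ`. -/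
def RETStmt : Prop := ∀ (V : Type) [Fintype V] [DecidableEq V] (G : SimpleGraph V) (d m : ℕ),
  Hyp G d m → ∀ C ∈ RC G d, ∀ y ∈ XX G C,
    ((nb G y \ C).card : ℤ) * (sg G C - mu (sg G C) (xx G C) (df G C y : ℤ))
      ≤ ∑ u ∈ nb G y \ C, (et G d y u - 1) - pay G d y

/-- JVX. Add CTR and RET. With `o = |nb y \ C| ≤ k = df C y` (OUT): `o (σ - μ) + (k - o)(d - 2) ≥
k (σ - μ)` because `d - 2 ≥ σ ≥ σ - μ` (`σ = d - x`, `x ≥ 2`, `μ ≥ 0` as `σ ≥ 1`). -/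
def JVXStmt : Prop := ∀ (V : Type) [Fintype V] [DecidableEq V] (G : SimpleGraph V) (d m : ℕ),
  Hyp G d m → ∀ C ∈ RC G d, ∀ y ∈ XX G C,
    (sg G C + 1) * ((df G C y : ℤ) - 1)
      + (df G C y : ℤ) * (sg G C - mu (sg G C) (xx G C) (df G C y : ℤ)) - (tw G d C y : ℤ)
      ≤ ex G d y - pay G d y

/-- FRE. `y` is in no rich closed neighbourhood, so `ex y ≥ 0` (else `cn y ∈ RC`). Take `U, p`
from PUN. If `U` is empty, done. Otherwise take `w ∈ U`, `w ∈ Iso C`, `C ∈ RC`. Claim: no `u ∈ nb y`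
has `et y u ≤ 0`. Else `cn u = cn y` (ETB). `w ∈ cn y = cn u`. If `u = w`: `cn w = cn y`, and a
`z ∈ SS C` is in `cn w` (`w ∈ C = cn z`), so `z ∈ cn y`, `y ∈ cn z = C`: contradiction. Otherwise
`u ∈ nb w`. If `u ∈ C`: for `z ∈ SS C`, `u ∈ cn z`, `z ∈ cn u = cn y`, `y ∈ C`: contradiction. So
`u ∉ C`, `u ∈ nb w \ C = {y}` (LKB): contradiction with `u ≠ y`. So all terms of EXF for `y` are
`≥ 0` (also the last one), and `ex y ≥ ∑_{u ∈ U} (et y u - 1) ≥ ∑_{u ∈ U} p u` by LKB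
(`lk ≤ et u y - 1`, `et u y = et y u`). -/
def FREStmt : Prop := ∀ (V : Type) [Fintype V] [DecidableEq V] (G : SimpleGraph V) (d m : ℕ),
  Hyp G d m → ∀ y : V, (∀ C ∈ RC G d, y ∉ C) → pay G d y ≤ ex G d y

/-- TWN. Let `w ∈ Jc ∪ Lf` (so `w ∈ XX`, `df C w ≥ 1`) and `z ∈ C \ cn w`. Every `u` counted in
`tw C w` has `cn u = cn w` (ETB), so `z ∉ cn u`, `u ∈ C \ cn z`; also `w ∈ C \ cn z`, `u ≠ w`. So
`tw C w + 1 ≤ df C z`. Hence `tw C w ≤ ∑_{z ∈ C \ cn w} (df C z - 1)` (nonempty sum of terms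
`≥ tw ≥ 0`). Sum over `w` and exchange: `z` is counted for at most `df C z` elements `w`
(`w ∈ C \ cn z`), so the total is `≤ ∑_{z ∈ C} df C z (df C z - 1)` (all these terms are `≥ 0`;
for `z` with `df ≤ 1` the term vanishes), which is the sum over `Jc`. -/
def TWNStmt : Prop := ∀ (V : Type) [Fintype V] [DecidableEq V] (G : SimpleGraph V) (d m : ℕ),
  Hyp G d m → ∀ C ∈ RC G d,
    ∑ w ∈ Lf G C, (tw G d C w : ℤ) + ∑ w ∈ Jc G C, (tw G d C w : ℤ)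
      ≤ ∑ z ∈ Jc G C, (df G C z : ℤ) * ((df G C z : ℤ) - 1)

/-- PAR. `C` is the disjoint union of `SS, Iso, Lf, Jc`: `w ∈ XX ↔ df ≥ 1` for `w ∈ C` (RCH); the
others are the cases `df = 1` (two kinds) and `df ≥ 2`. -/
def PARStmt : Prop := ∀ (V : Type) [Fintype V] [DecidableEq V] (G : SimpleGraph V) (d m : ℕ),
  Hyp G d m → ∀ C ∈ RC G d,
    (∀ f : V → ℤ, ∑ w ∈ C, f w
      = ∑ w ∈ SS G C, f w + ∑ w ∈ Iso G C, f w + ∑ w ∈ Lf G C, f w + ∑ w ∈ Jc G C, f w) ∧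
    (∀ f : V → ℤ, ∑ w ∈ XX G C, f w
      = ∑ w ∈ Iso G C, f w + ∑ w ∈ Lf G C, f w + ∑ w ∈ Jc G C, f w) ∧
    (XX G C).card = (Iso G C).card + (Lf G C).card + (Jc G C).card ∧
    Iso G C ⊆ XX G C ∧ Lf G C ⊆ XX G C ∧ Jc G C ⊆ XX G C

/-- MIS. Take a maximal independent subset `I` of `A` (for instance of maximal cardinality). Every
`a ∈ A \ I` is related to some `b ∈ I`, so `|A \ I| ≤ ∑_{b ∈ I} |{a ∈ A : R b a}| ≤ q |I|`. -/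
def MISStmt : Prop := ∀ (V : Type) [DecidableEq V] (A : Finset V) (R : V → V → Prop)
  [DecidableRel R] (q : ℕ), (∀ a b, R a b → R b a) → (∀ a ∈ A, (A.filter (fun b => R a b)).card ≤ q) →
    ∃ I ⊆ A, (∀ a ∈ I, ∀ b ∈ I, a ≠ b → ¬ R a b) ∧ A.card ≤ (q + 1) * I.card

/-- COV. Let `R u v` be `u ∉ cn v` (symmetric). For `w ∈ C` the elements of `C` related to `w` are
`C \ cn w`, `df C w` many. MIS with `A = Iso C`, `q = 1`: `T ⊆ Iso C` without related pairs,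
`|Iso C| ≤ 2 |T|`. MIS with `A = J2 C`, `q = 2`: `I`, `|J2 C| ≤ 3 |I|`. Let
`K = SS C ∪ T ∪ Lf C ∪ I` (pairwise disjoint subsets of `C`). `K` is a clique: a member of `SS` is
adjacent to all of `C`; a `w ∈ T` has one non-neighbour `w'` in `C`, `df C w' = 1`, `C \ cn w' = {w}`,
so `w' ∈ Iso C` (not in `SS, Lf, J2`), and `w' ∉ T`; a leaf has one non-neighbour, which has
`df ≠ 1`, so `≥ 2` and is not a leaf, and it is not in `J2` since `J2` vertices have no non-neighbour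
of `df ≤ 1`; `I` has no related pair. By `clq`: `|SS| + |T| + |Lf| + |I| + m ≤ d + 1 =
|SS| + |Iso| + |Lf| + |Jc|` (RCH, PAR), so `m + |T| + |I| ≤ |Iso| + |Jc|`; double it and use
`|Iso| ≤ 2 |T|`. -/
def COVStmt : Prop := ∀ (V : Type) [Fintype V] [DecidableEq V] (G : SimpleGraph V) (d m : ℕ),
  Hyp G d m → ∀ C ∈ RC G d, ∃ I : ℕ,
    2 * m + 2 * I ≤ (Iso G C).card + 2 * (Jc G C).card ∧ (J2 G C).card ≤ 3 * I

/-- LEA. (1) `w ∈ Jp C`: there is `u ∈ C \ cn w` with `df C u ≤ 1`; as `w ∈ C \ cn u`,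
`C \ cn u = {w}`, `df C u = 1`, and `df C w = 2 ≠ 1`, so `u ∈ Lf C`. Choosing `u` for every `w` is
injective (`w` is the only element of `C \ cn u`). (2) `Jc` is the disjoint union: `df = 2` and all
non-neighbours have `df ≥ 2`; `df = 2` and some non-neighbour has `df ≤ 1`; `df ≥ 3`. -/
def LEAStmt : Prop := ∀ (V : Type) [Fintype V] [DecidableEq V] (G : SimpleGraph V) (C : Finset V),
  (Jp G C).card ≤ (Lf G C).card ∧
  (∀ f : V → ℤ, ∑ w ∈ Jc G C, f w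
    = ∑ w ∈ J2 G C, f w + ∑ w ∈ Jp G C, f w + ∑ w ∈ J3 G C, f w) ∧
  (Jc G C).card = (J2 G C).card + (Jp G C).card + (J3 G C).card

/-- BK1. `x ≥ 8`. `k = 2`: `mu = 0` (`5 - x ≤ 0`), `bk = 4 s`. `k = 3`: `mu = 0`, `bk = 7 s - 2`.
`k = 4`: `mu ≤ 3`, `bk ≥ 10 s - 18 ≥ 5 s` (`s ≥ 4`). `k ≥ 5`: `mu ≤ s`, so
`bk ≥ (k - 1)(2 s + 2 - k)`, and `(k - 1)(2 s + 2 - k) - 5 s = (3 s - 12) + (k - 5)(2 s - 2 - k) ≥ 0`
(check the identity: at `k = 5` it is `4 (2 s - 3) - 5 s = 3 s - 12`; `2 s - 2 - k ≥ 0`). -/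
def BK1Stmt : Prop := ∀ d s x k : ℤ, 18 ≤ d → s + x = d → d + 4 ≤ 3 * x → 2 ≤ k → k ≤ s →
  4 * s ≤ bk s x k ∧ (3 ≤ k → 5 * s ≤ bk s x k)

/-- BK2. First: `k = 2`: `bk = 4 s - 2 mu`, `mu ≤ max 0 (5 - x)`. Second (`k ≥ 3`), put `s = d - x`:
`k = 3`: `bk ≥ 7 s - 2 - 3 max 0 (8 - x)`; if `x ≥ 8` then the difference to `4 d + x - 7` is
`3 d - 8 x + 5 ≥ (d - 9) / 3`; if `x ≤ 8` it is `3 d - 5 x - 19`, and `3 x ≤ d + 3`: for `x ≤ 7` use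
`d ≥ 18`. `k = 4`: `bk ≥ 10 s - 6 - 4 max 0 (11 - x)`: difference `6 d - 11 x + 1` if `x ≥ 11`, and
`6 d - 7 x - 43` otherwise. `k ≥ 5`: `bk ≥ (k - 1)(2 s + 2 - k)`, concave in `k`; at `k = 5` the
difference is `4 d - 9 x - 5 ≥ d - 14`; at `k = s` it is `s ^ 2 + 2 s + 5 - 5 d` with
`2 d ≤ 3 s + 3`, `s ≥ 11`. In between: `(k - 1)(2 s + 2 - k) = 4 (2 s - 3) + (k - 5)(2 s - 2 - k)` and
`2 s - 2 - k ≥ 0`, so the value at `k` is at least the value at `5`. -/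
def BK2Stmt : Prop := ∀ d s x k : ℤ, 18 ≤ d → s + x = d → 3 * x ≤ d + 3 → 2 ≤ x → 2 ≤ k → k ≤ s →
  (k = 2 → 4 * s - 2 * max 0 (5 - x) ≤ bk s x k) ∧ (3 ≤ k → 4 * d + x - 7 ≤ bk s x k)

/-- AR1. `T = 2 s` (`2 s = 2 d - 2 x ≤ d + x - 4`). The right side is
`≥ s (-(s + 1) + 2 i + l + 4 (j2 + jp) + 5 j3)`, and `s + 1 = d + 1 - x`, so the bracket is
`-(d + 1) + 3 i + 2 l + 5 (j2 + jp) + 6 j3 ≥ -(d + 1) + 6 m + 6 I - j2 - jp + 2 l ≥ 6 m - (d + 1)`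
(use `3 i ≥ 6 m + 6 I - 6 (j2 + jp + j3)`, `6 I ≥ 2 j2`, `2 l ≥ 2 jp`). If `6 m ≥ d + 1` the product is
`≥ 0`. Otherwise `s ≤ d - 1` gives `≥ (d - 1)(6 m - d - 1) = 6 m (d - 1) - d (d + 1) + (d + 1)`. -/
def AR1Stmt : Prop := ∀ d m s x i l j2 jp j3 I B : ℤ, 18 ≤ d → 1 ≤ m → s + x = d → 1 ≤ s → 2 ≤ x →
  0 ≤ i → 0 ≤ l → 0 ≤ j2 → 0 ≤ jp → 0 ≤ j3 → 0 ≤ I → d + 4 ≤ 3 * x →
  x = i + l + (j2 + jp + j3) → 2 * m + 2 * I ≤ i + 2 * (j2 + jp + j3) → j2 ≤ 3 * I → jp ≤ l →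
  4 * s * (j2 + jp) + 5 * s * j3 ≤ B →
  min 0 (6 * m * (d - 1) - d * (d + 1))
    ≤ -(s + 1) * s + i * min (2 * s) (d + x - 4) + B + l * s

/-- AR2. `T = d + x - 4` (`d + x - 4 ≤ 2 (d - x)`). Put `J = j2 + jp + j3`, `M = max 0 (5 - x)`. As
`i = x - l - J` and `x (d + x - 4) - (s + 1) s = 3 x (d - 1) - d (d + 1)` (`s = d - x`), the right side
is `3 x (d - 1) - d (d + 1) - (J + l)(d + x - 4) + B + l s`. And
`6 m (d - 1) ≤ (3 i + 6 J - 6 I)(d - 1) = (3 x + 3 J - 3 l - 6 I)(d - 1)`. So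
right side `- (6 m (d - 1) - d (d + 1)) ≥ - 3 (d - 1) J - J (d + x - 4) + B
+ l (3 (d - 1) - (d + x - 4) + s) + 6 (d - 1) I`. Here `l` has the coefficient `3 d - 2 x + 1 ≥ 0`, use
`l ≥ jp`; `6 I ≥ 2 j2`; `B ≥ ...`. So it is
`≥ j2 (2 d - 5 x + 5 - 2 M) + jp (3 d - 7 x + 8 - 2 M) + j3 · 0`, and both coefficients are `≥ 0`
(`x ≥ 5`: `M = 0`, `3 x ≤ d + 3`; `x ≤ 4`: `M = 5 - x`, `d ≥ 18`). -/
def AR2Stmt : Prop := ∀ d m s x i l j2 jp j3 I B : ℤ, 18 ≤ d → 1 ≤ m → s + x = d → 1 ≤ s → 2 ≤ x →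
  0 ≤ i → 0 ≤ l → 0 ≤ j2 → 0 ≤ jp → 0 ≤ j3 → 0 ≤ I → 3 * x ≤ d + 3 →
  x = i + l + (j2 + jp + j3) → 2 * m + 2 * I ≤ i + 2 * (j2 + jp + j3) → j2 ≤ 3 * I → jp ≤ l →
  (4 * s - 2 * max 0 (5 - x)) * (j2 + jp) + (4 * d + x - 7) * j3 ≤ B →
  min 0 (6 * m * (d - 1) - d * (d + 1))
    ≤ -(s + 1) * s + i * min (2 * s) (d + x - 4) + B + l * s

/-- ECA. Split with PAR. On `SS`: `pay = 0` (PZS) and `ex = ∑_{XX} df - d`, `|SS| = σ + 1`. By PAR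
`∑_{XX} df = |Iso| + |Lf| + ∑_{Jc} df` and `x = |Iso| + |Lf| + |Jc|`, `d = σ + x`, so
`∑_{XX} df - d = ∑_{Jc} (df - 1) - σ`. On `Iso`: `pay = 0` (PZI), `ex + lk ≥ T`. On `Lf` (`df = 1`):
JVX gives `ex - pay ≥ σ - mu σ x 1 - tw`, and `mu σ x 1 = 0` (`3 - x - 1 ≤ 0`, `σ ≥ 1`). On `Jc`: JVX.
Then TWN, and the definition of `bk`. -/
def ECAStmt : Prop := ∀ (V : Type) [Fintype V] [DecidableEq V] (G : SimpleGraph V) (d m : ℕ),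
  Hyp G d m → ∀ C ∈ RC G d,
    -(sg G C + 1) * sg G C + ((Iso G C).card : ℤ) * Tt G d C
      + ∑ z ∈ Jc G C, bk (sg G C) (xx G C) (df G C z : ℤ) + ((Lf G C).card : ℤ) * sg G C
      ≤ ∑ w ∈ C, (ex G d w - pay G d w) + ∑ w ∈ Iso G C, lk G d C w

/-- ECS. ECA and AR1 (if `d + 4 ≤ 3 x`) or AR2 (otherwise), with `s = sg`, `x = xx`, `i = |Iso|`,
`l = |Lf|`, `j2, jp, j3` the cardinalities of `J2, Jp, J3` (LEA), `I` from COV, `B` the sum of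
`bk` over `Jc`, split by LEA and bounded below with BK1 / BK2 (for `z ∈ Jc`: `k = df C z` satisfies
`2 ≤ k ≤ s` by RCH; `k = 2` on `J2, Jp`; `k ≥ 3` on `J3`). `s + x = d`, `s ≥ 1`, `x ≥ 2` by RCH. -/
def ECSStmt : Prop := ∀ (V : Type) [Fintype V] [DecidableEq V] (G : SimpleGraph V) (d m : ℕ),
  Hyp G d m → ∀ C ∈ RC G d,
    min 0 (6 * (m : ℤ) * ((d : ℤ) - 1) - (d : ℤ) * ((d : ℤ) + 1))
      ≤ ∑ w ∈ C, (ex G d w - pay G d w) + ∑ w ∈ Iso G C, lk G d C w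

/-- GSP. Exchange the sums: `∑_v pay v = ∑_{C ∈ RC} ∑_{w ∈ Iso C} |nb w \ C| · lk C w`
(`v ∉ C`, `w ∈ nb v` iff `v ∈ nb w \ C`). If `nb w \ C = ∅` then `lk = 0` (LKB), otherwise
`|nb w \ C| ≥ 1` and `lk ≥ 0`. -/
def GSPStmt : Prop := ∀ (V : Type) [Fintype V] [DecidableEq V] (G : SimpleGraph V) (d m : ℕ),
  Hyp G d m → ∑ C ∈ RC G d, ∑ w ∈ Iso G C, lk G d C w ≤ ∑ v : V, pay G d v

/-- GLO. The members of `RC` are pairwise disjoint (DSJ) with `d + 1` elements. So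
`∑_v ex v = ∑_v (ex v - pay v) + ∑_v pay v ≥ ∑_{C ∈ RC} (∑_{w ∈ C} (ex w - pay w) + ∑_{Iso C} lk)
+ ∑_{v in no C} (ex v - pay v) ≥ |RC| · min 0 (...)` (GSP, ECS, FRE), and `(d + 1) |RC| ≤ |V|`,
`min 0 (...) ≤ 0`. -/
def GLOStmt : Prop := ∀ (V : Type) [Fintype V] [DecidableEq V] (G : SimpleGraph V) (d m : ℕ),
  Hyp G d m → (Fintype.card V : ℤ) * min 0 (6 * (m : ℤ) * ((d : ℤ) - 1) - (d : ℤ) * ((d : ℤ) + 1))
    ≤ ((d : ℤ) + 1) * ∑ v : V, ex G d v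

/-- TRI. Every triangle `{a, b, c}` is counted for the 6 ordered pairs `(v, w)`: `∑_v ∑_{w ∈ nb v}
|nb v ∩ nb w|` counts the triples `(v, w, u)` of pairwise adjacent vertices. (The library
`Pool/Agent/H23/KT/Base.lean` has `kc`, `kc_sum` and `ncard_eq_kc`, or count directly.) -/
def TRIStmt : Prop := ∀ (n : ℕ) (H : SimpleGraph (Fin n)),
  6 * {s : Finset (Fin n) | H.IsNClique 3 s}.ncard = ∑ v, ∑ w ∈ nb H v, cd H v w

/-- TU1. `ncard_eq_kc`, `kc_turan`, `P_formula` of `Pool/Agent/H23/KT/Base.lean` (see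
`Pool/Agent/Results/MP_fd41b2_co/NearComplete.lean`) give, with `m = Δ + 1 - ω`, `b = 2 ω - (Δ + 1)`
(`2 m + b = Δ + 1`): the number is `C(b,3) + 2 m C(b,2) + 4 C(m,2) b + 8 C(m,3)`; six times this is
`(2m+b)(2m+b-1)(2m+b-2) - 6 m (2m+b-2)`. -/
def TU1Stmt : Prop := ∀ Δ ω : ℕ, 3 ≤ Δ → ω ≤ Δ + 1 → Δ + 1 ≤ 2 * ω →
  6 * {s : Finset (Fin (Δ + 1)) | (SimpleGraph.turanGraph (Δ + 1) ω).IsNClique 3 s}.ncard
    + 6 * (Δ + 1 - ω) * (Δ - 1) = (Δ + 1) * Δ * (Δ - 1)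

/-- TU2. The same with `Δ + 1` replaced by `2 a + 2` and `ω = a + 1`: the number is `8 C(a+1, 3)`, and
`48 C(a+1,3) = (2a+2)(2a)(2a-2)`. Degree: in `turanGraph n r` the vertices `u ≠ v` are adjacent iff
`u % r ≠ v % r`; the vertex `(v + a + 1) mod (2 a + 2) ≠ v` is not adjacent to `v`. -/
def TU2Stmt : Prop := ∀ a : ℕ, 1 ≤ a →
  6 * {s : Finset (Fin (2 * a + 2)) | (SimpleGraph.turanGraph (2 * a + 2) (a + 1)).IsNClique 3 s}.ncard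
    = (2 * a + 2) * (2 * a) * (2 * a - 2) ∧
  ∀ v, ((SimpleGraph.turanGraph (2 * a + 2) (a + 1)).neighborSet v).ncard ≤ 2 * a

/-- FIN. For `H` with the two bounds put `m = Δ + 1 - ω`. If `m ≥ 1`, `Hyp H Δ m` holds (a clique with
more than `ω` elements contains one with `ω + 1`). `∑_v ex v = n Δ (Δ - 2) - 6 k` with `k` the number
of triangles (TRI). First part: `6 m (Δ - 1) - Δ (Δ + 1) ≤ 0`, so GLO reads
`n (6 m (Δ - 1) - Δ (Δ + 1)) ≤ (Δ + 1)(n Δ (Δ - 2) - 6 k)`, i.e.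
`6 k (Δ + 1) ≤ n (Δ (Δ + 1)(Δ - 1) - 6 m (Δ - 1))`, and the bracket is `6 k(T)` by TU1
(`Δ + 1 ≤ 2 ω` because `6 m (Δ - 1) ≤ Δ (Δ + 1)`, `Δ ≥ 18`). If `m = 0`: `cd ≤ Δ - 1`, so
`6 k ≤ n Δ (Δ - 1)` by TRI. Second part: `m ≥ 1`, the min is `0`, so `6 k ≤ n Δ (Δ - 2)`, and
TU2 with `Δ = 2 a`. -/
def FINStmt : Prop := ∀ Δ ω : ℕ, 18 ≤ Δ → ω ≤ Δ + 1 →
  (6 * (Δ + 1 - ω) * (Δ - 1) ≤ Δ * (Δ + 1) →
    (∀ v, ((SimpleGraph.turanGraph (Δ + 1) ω).neighborSet v).ncard ≤ Δ) ∧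
    (SimpleGraph.turanGraph (Δ + 1) ω).CliqueFree (ω + 1) ∧
    6 * {s : Finset (Fin (Δ + 1)) | (SimpleGraph.turanGraph (Δ + 1) ω).IsNClique 3 s}.ncard
      + 6 * (Δ + 1 - ω) * (Δ - 1) = (Δ + 1) * Δ * (Δ - 1) ∧
    ∀ m : ℕ, 0 < m → ∀ H : SimpleGraph (Fin m),
      (∀ v, (H.neighborSet v).ncard ≤ Δ) → H.CliqueFree (ω + 1) →
        {s : Finset (Fin m) | H.IsNClique 3 s}.ncard * (Δ + 1) ≤
          {s : Finset (Fin (Δ + 1)) | (SimpleGraph.turanGraph (Δ + 1) ω).IsNClique 3 s}.ncard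
            * m) ∧
  (Δ * (Δ + 1) ≤ 6 * (Δ + 1 - ω) * (Δ - 1) → Even Δ → Δ + 2 ≤ 2 * ω →
    (∀ v, ((SimpleGraph.turanGraph (Δ + 2) (Δ / 2 + 1)).neighborSet v).ncard ≤ Δ) ∧
    (SimpleGraph.turanGraph (Δ + 2) (Δ / 2 + 1)).CliqueFree (ω + 1) ∧
    6 * {s : Finset (Fin (Δ + 2)) |
        (SimpleGraph.turanGraph (Δ + 2) (Δ / 2 + 1)).IsNClique 3 s}.ncard
      = (Δ + 2) * Δ * (Δ - 2) ∧
    ∀ m : ℕ, 0 < m → ∀ H : SimpleGraph (Fin m),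
      (∀ v, (H.neighborSet v).ncard ≤ Δ) → H.CliqueFree (ω + 1) →
        {s : Finset (Fin m) | H.IsNClique 3 s}.ncard * (Δ + 2) ≤
          {s : Finset (Fin (Δ + 2)) |
            (SimpleGraph.turanGraph (Δ + 2) (Δ / 2 + 1)).IsNClique 3 s}.ncard * m)

end Pool.TRI
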