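import Pool.Agent.H46.KT3.Main

/-!
# Clique number three: the Turán graph maximises the clique density for all `Δ ≥ 26`
-/

namespace Pool.TRI

open Pool.Agent.H46.KT3

/-- **Theorem.** Let `t ≥ 3` and `Δ ≥ 26`. The Turán graph with `Δ + ⌊Δ / 2⌋` vertices and three
parts has maximum degree at most `Δ`, no `K₄`, exactly `⌊Δ / 2⌋ ^ 2 * ⌈Δ / 2⌉` triangles, and it
maximises the number of `t`-cliques per vertex among all graphs with maximum degree at most `Δ` and
clique number at most three. -/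
theorem three : ∀ t Δ : ℕ, 3 ≤ t → 26 ≤ Δ →
    (∀ v, ((SimpleGraph.turanGraph (Δ + Δ / 2) 3).neighborSet v).ncard ≤ Δ) ∧
    (SimpleGraph.turanGraph (Δ + Δ / 2) 3).CliqueFree (3 + 1) ∧
    {s : Finset (Fin (Δ + Δ / 2)) | (SimpleGraph.turanGraph (Δ + Δ / 2) 3).IsNClique 3 s}.ncard
      = (Δ / 2) ^ 2 * (Δ - Δ / 2) ∧
    ∀ m : ℕ, 0 < m → ∀ H : SimpleGraph (Fin m),
      (∀ v, (H.neighborSet v).ncard ≤ Δ) → H.CliqueFree (3 + 1) →
        {s : Finset (Fin m) | H.IsNClique t s}.ncard * (Δ + Δ / 2) ≤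
          {s : Finset (Fin (Δ + Δ / 2)) |
            (SimpleGraph.turanGraph (Δ + Δ / 2) 3).IsNClique t s}.ncard * m := by
  intro t Δ ht hΔ
  rcases Nat.even_or_odd' Δ with ⟨a, ha | ha⟩
  · subst ha
    have h1 : 2 * a / 2 = a := by omega
    rw [h1, show 2 * a + a = 3 * a by ring, show 2 * a - a = a by omega]
    refine ⟨deg_tur_even a, SimpleGraph.turanGraph_cliqueFree (by omega), ?_, ?_⟩
    · rw [tur_even]; ring
    · intro m _ H hd hK
      rcases Nat.eq_or_lt_of_le ht with rfl | ht'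
      · rw [tur_even]
        exact even_bound H hd hK
      · rw [zero_cliques ht' H hK, Nat.zero_mul]
        exact Nat.zero_le _
  · subst ha
    have h1 : (2 * a + 1) / 2 = a := by omega
    rw [h1, show 2 * a + 1 + a = 3 * a + 1 by ring, show 2 * a + 1 - a = a + 1 by omega]
    refine ⟨deg_tur_odd a, SimpleGraph.turanGraph_cliqueFree (by omega), tur_odd a, ?_⟩
    intro m _ H hd hK
    rcases Nat.eq_or_lt_of_le ht with rfl | ht'
    · rw [tur_odd]
      exact odd_bound (by omega) H hd hK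
    · rw [zero_cliques ht' H hK, Nat.zero_mul]
      exact Nat.zero_le _

end Pool.TRI
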